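import Pool.Agent.P8H86.EV.Coef

/-!
Project EV (helper8), package BAS.
-/

set_option autoImplicit false

open MeasureTheory Set Filter Metric
open scoped Topology ContDiff ComplexConjugate

namespace Pool.Agent.P8H86.EV

open Pool.Agent.TH298.Sch (SC dd Lr)
open Pool.Agent.R227.SA (la Dat)
open Pool.Agent.P8H8.EV
open Pool.Agent.P8H8.SV

lemma isOpen_half : IsOpen {ζ : ℂ | ζ.re < 0} := isOpen_Iio.preimage Complex.continuous_re

/-- a directional derivative of a smooth function is smooth. -/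
lemma dir_smooth {S : Set ℂ} (hS : IsOpen S) {f : ℂ → ℂ} (hf : ContDiffOn ℝ ∞ f S) (η : ℂ) :
    ContDiffOn ℝ ∞ (fun ζ => fderiv ℝ f ζ η) S := by
  have h1 : ContDiffOn ℝ ∞ (fderiv ℝ f) S := hf.fderiv_of_isOpen hS (by simp)
  exact h1.clm_apply contDiffOn_const

lemma Dxy_comm {S : Set ℂ} (hS : IsOpen S) {f : ℂ → ℂ} (hf : ContDiffOn ℝ ∞ f S) :
    ∀ ζ ∈ S, Dy (Dx f) ζ = Dx (Dy f) ζ := by
  intro ζ hζ
  have hc : ContDiffAt ℝ ∞ f ζ := hf.contDiffAt (hS.mem_nhds hζ)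
  have h1 : DifferentiableAt ℝ (fderiv ℝ f) ζ := by
    have h2 : ContDiffAt ℝ ∞ (fderiv ℝ f) ζ := hc.fderiv_right (by simp)
    exact h2.differentiableAt (by simp)
  have hsym : IsSymmSndFDerivAt ℝ f ζ := hc.isSymmSndFDerivAt (by
    simpa using (by norm_cast : (2 : WithTop ℕ∞) ≤ ∞))
  have e1 : Dy (Dx f) ζ = fderiv ℝ (fderiv ℝ f) ζ Complex.I 1 := by
    unfold Dy Dx
    rw [fderiv_clm_apply h1 (differentiableAt_const _)]
    simp
  have e2 : Dx (Dy f) ζ = fderiv ℝ (fderiv ℝ f) ζ 1 Complex.I := by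
    unfold Dy Dx
    rw [fderiv_clm_apply h1 (differentiableAt_const _)]
    simp
  rw [e1, e2]
  exact hsym _ _

lemma Dy_iter_Dx {S : Set ℂ} (hS : IsOpen S) (k : ℕ) : ∀ {f : ℂ → ℂ}, ContDiffOn ℝ ∞ f S →
    ∀ ζ ∈ S, Dy^[k] (Dx f) ζ = Dx (Dy^[k] f) ζ := by
  induction k with
  | zero => intro f _ ζ _; rfl
  | succ k ih =>
    intro f hf ζ hζ
    rw [Function.iterate_succ_apply, Function.iterate_succ_apply]
    rw [← ih (f := Dy f) (dir_smooth hS hf Complex.I) ζ hζ]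
    exact Dy_congr hS (Dxy_comm hS hf) k ζ hζ

lemma W0_smooth {Ω : Set ℂ} {lam c : ℝ} {v : ℂ → ℝ} (D : Dat Ω lam c v) :
    ContDiffOn ℝ ∞ (W c v 0) Ω := by
  intro x hx
  obtain ⟨r, hr, U, hU, hb, h⟩ := D.loc x hx
  have : W c v 0 =ᶠ[𝓝 x] fun y => ((U y : ℝ) : ℂ) := by
    filter_upwards [ball_mem_nhds x hr] with y hy
    change ((v y + c : ℝ) : ℂ) = _
    rw [(h y hy).1]
  have h2 : ContDiff ℝ ∞ (fun y => ((U y : ℝ) : ℂ)) := Complex.ofRealCLM.contDiff.comp hU.sm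
  exact (h2.contDiffAt.congr_of_eventuallyEq this).contDiffWithinAt

/-- the functions `Lr^k V ∘ exp`. -/
noncomputable def fk (V : ℂ → ℝ) (k : ℕ) (ζ : ℂ) : ℂ := ((Lr^[k] V (Complex.exp ζ) : ℝ) : ℂ)

lemma fk_fderiv {V : ℂ → ℝ} {k : ℕ} (h : ContDiff ℝ 1 (Lr^[k] V)) (ζ η : ℂ) :
    fderiv ℝ (fk V k) ζ η =
      ((fderiv ℝ (Lr^[k] V) (Complex.exp ζ) (Complex.exp ζ * η) : ℝ) : ℂ) := by
  have h1 : DifferentiableAt ℝ (fun w => ((Lr^[k] V w : ℝ) : ℂ)) (Complex.exp ζ) :=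
    (Complex.ofRealCLM.differentiable.comp (h.differentiable (by norm_num))) _
  have h2 := exp_chain_c h1 η
  change fderiv ℝ (fun x => (fun w => ((Lr^[k] V w : ℝ) : ℂ)) (Complex.exp x)) ζ η = _
  rw [h2]
  have h3 : HasFDerivAt (fun w => ((Lr^[k] V w : ℝ) : ℂ))
      (Complex.ofRealCLM.comp (fderiv ℝ (Lr^[k] V) (Complex.exp ζ))) (Complex.exp ζ) :=
    Complex.ofRealCLM.hasFDerivAt.comp _ (h.differentiable (by norm_num) _).hasFDerivAt
  rw [h3.fderiv]
  rfl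

lemma Dy_fk {V : ℂ → ℝ} {k : ℕ} (h : ContDiff ℝ 1 (Lr^[k] V)) : Dy (fk V k) = fk V (k + 1) := by
  funext ζ
  unfold Dy
  rw [fk_fderiv h]
  unfold fk
  rw [Function.iterate_succ_apply']
  unfold Lr
  rw [mul_comm]

lemma Dy_iter_fk {V : ℂ → ℝ} (h : ∀ k, ContDiff ℝ 1 (Lr^[k] V)) (k : ℕ) :
    Dy^[k] (fk V 0) = fk V k := by
  induction k with
  | zero => rfl
  | succ k ih => rw [Function.iterate_succ_apply', ih, Dy_fk (h k)]

lemma deriv_iter_zero (k : ℕ) : deriv^[k] (fun _ : ℝ => (0 : ℂ)) = fun _ => 0 := by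
  induction k with
  | zero => rfl
  | succ k ih =>
    rw [Function.iterate_succ_apply', ih]
    funext y
    simp

lemma UL_of_eq {f : ℂ → ℂ} {G : ℂ → ℂ} (hG : Continuous G) (h0 : ∀ w : ℂ, ‖w‖ = 1 → G w = 0)
    (hf : ∀ ζ : ℂ, ζ.re < 0 → f ζ = G (Complex.exp ζ)) : UL f (fun _ => 0) := by
  intro ε hε
  obtain ⟨δ, hδ, h⟩ := unif_c G hG.continuousOn ε hε
  refine ⟨δ, hδ, fun x y hx hx0 => ?_⟩
  have h2 : ‖G (Complex.exp (x + y * Complex.I)) - G (Complex.exp (y * Complex.I))‖ < ε :=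
    h x y hx hx0
  rw [h0 _ (Complex.norm_exp_ofReal_mul_I y)] at h2
  rw [hf _ (by simpa using hx0)]
  exact h2

theorem t_BAS (hHREG : S_HREG) (hBVA : S_BVA) (hCHAIN : S_CHAIN) : S_BAS := by
  intro φ r lam c v hD hDat
  obtain ⟨hcongr, hadd, hmul, hDy, hconst⟩ := hBVA
  have hreg := hHREG φ r lam c v hD hDat
  set V := Vd φ v with hV
  have hC1 : ∀ k, ContDiff ℝ 1 (Lr^[k] V) := fun k => (hreg k).1
  obtain ⟨hsmW, hch⟩ := hCHAIN φ r (W c v 0) hD (W0_smooth hDat)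
  -- the function in the half-plane
  have hWf : ∀ ζ : ℂ, ζ.re < 0 → W c v 0 (φ (Complex.exp ζ)) = fk V 0 ζ + c := by
    intro ζ hζ
    have hn : ‖Complex.exp ζ‖ < 1 := by rw [Complex.norm_exp, Real.exp_lt_one_iff]; exact hζ
    change ((v (φ (Complex.exp ζ)) + c : ℝ) : ℂ) = ((Vd φ v (Complex.exp ζ) : ℝ) : ℂ) + c
    unfold Vd
    rw [if_pos hn]
    push_cast
    rfl
  have hf0sm : ContDiffOn ℝ ∞ (fk V 0) {ζ | ζ.re < 0} := by
    have h1 : ContDiffOn ℝ ∞ (fun ζ => W c v 0 (φ (Complex.exp ζ)) - c) {ζ | ζ.re < 0} :=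
      hsmW.sub contDiffOn_const
    refine h1.congr fun ζ hζ => ?_
    rw [hWf ζ hζ]
    ring
  have hUL0 : ∀ k, UL (fk V k) (fun _ => 0) := by
    intro k
    refine UL_of_eq (G := fun w => ((Lr^[k] V w : ℝ) : ℂ))
      (Complex.continuous_ofReal.comp (hC1 k).continuous) (fun w hw => ?_) (fun ζ _ => rfl)
    rw [((hreg k).2 w hw.ge).1]
    simp
  have hB0 : BV (fk V 0) (fun _ => 0) := by
    refine ⟨hf0sm, contDiff_const, fun _ => rfl, fun k => ?_⟩
    rw [deriv_iter_zero, Dy_iter_fk hC1]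
    exact hUL0 k
  have hBx : BV (Dx (fk V 0)) (fun _ => 0) := by
    refine ⟨dir_smooth isOpen_half hf0sm 1, contDiff_const, fun _ => rfl, fun k => ?_⟩
    rw [deriv_iter_zero]
    refine UL_of_eq (G := fun w => ((fderiv ℝ (Lr^[k] V) w w : ℝ) : ℂ)) ?_ (fun w hw => ?_)
      (fun ζ hζ => ?_)
    · exact Complex.continuous_ofReal.comp
        (((hC1 k).continuous_fderiv (by norm_num)).clm_apply continuous_id)
    · rw [((hreg k).2 w hw.ge).2]
      simp
    · rw [Dy_iter_Dx isOpen_half k hf0sm ζ hζ, Dy_iter_fk hC1]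
      unfold Dx
      rw [fk_fderiv (hC1 k), mul_one]
  have hBy : BV (Dy (fk V 0)) (fun _ => 0) := by
    have h1 := hDy _ _ hB0
    have h2 := deriv_iter_zero 1
    rw [Function.iterate_one] at h2
    rwa [h2] at h1
  refine ⟨?_, ?_⟩
  · have h1 := hadd _ _ _ _ hB0 (hconst (c : ℂ))
    have h2 := hcongr _ (fun ζ => W c v 0 (φ (Complex.exp ζ))) _ h1 hWf
    simpa using h2
  · -- the coefficient
    let G : ℂ → ℂ := fun w => 1 / (2 * (w * deriv φ w))
    have hGd : DifferentiableOn ℂ G (ball 0 r \ {0}) := by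
      intro w hw
      have h2 : DifferentiableAt ℂ (deriv φ) w :=
        (hD.hol.deriv isOpen_ball).differentiableAt (isOpen_ball.mem_nhds hw.1)
      have h3 := hD.deriv_ne hw.1
      have h4 : w ≠ 0 := hw.2
      refine DifferentiableAt.differentiableWithinAt ?_
      exact (differentiableAt_const _).div ((differentiableAt_id.mul h2).const_mul 2)
        (mul_ne_zero two_ne_zero (mul_ne_zero h4 h3))
    have hGs : ContDiffOn ℝ ∞ G (ball 0 r \ {0}) := by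
      have h1 : ContDiffOn ℂ ∞ G (ball 0 r \ {0}) :=
        hGd.contDiffOn (isOpen_ball.sdiff isClosed_singleton)
      exact h1.restrict_scalars ℝ
    have hBG := t_COEF r G hD.hr hGs
    have h1 := hadd _ _ _ _ hBx (hmul _ _ _ _ (hconst (-Complex.I)) hBy)
    have h2 := hmul _ _ _ _ h1 hBG
    have h3 := hcongr _ (fun ζ => W c v 1 (φ (Complex.exp ζ))) _ h2 ?_
    · have e : (fun y : ℝ => ((0 : ℂ) + -Complex.I * 0) * G (Complex.exp (y * Complex.I))) =
          fun _ => 0 := by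
        funext y
        ring
      rw [e] at h3
      exact h3
    · intro ζ hζ
      have hn : ‖Complex.exp ζ‖ < 1 := by rw [Complex.norm_exp, Real.exp_lt_one_iff]; exact hζ
      have hev : (fun x => W c v 0 (φ (Complex.exp x))) =ᶠ[𝓝 ζ] fun x => fk V 0 x + c := by
        filter_upwards [isOpen_half.mem_nhds hζ] with x hx
        exact hWf x hx
      have hfd : fderiv ℝ (fun x => W c v 0 (φ (Complex.exp x))) ζ = fderiv ℝ (fk V 0) ζ := by
        rw [hev.fderiv_eq, fderiv_add_const]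
      have c1 := hch ζ hζ 1
      have c2 := hch ζ hζ Complex.I
      rw [hfd] at c1 c2
      have hne : dF φ ζ ≠ 0 := by
        unfold dF
        refine mul_ne_zero (Complex.exp_ne_zero _) (hD.deriv_ne ?_)
        rw [mem_ball_zero_iff]
        linarith [hD.hr]
      have eG : G (Complex.exp ζ) = 1 / (2 * dF φ ζ) := rfl
      change dz (W c v 0) (φ (Complex.exp ζ)) =
        (Dx (fk V 0) ζ + -Complex.I * Dy (fk V 0) ζ) * G (Complex.exp ζ)
      unfold Dx Dy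
      rw [c1, c2, eG, mul_one, map_mul, Complex.conj_I]
      field_simp
      ring_nf
      rw [Complex.I_sq]
      ring

end Pool.Agent.P8H86.EV
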