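import Pool.Agent.P8H8.EV.Stm
import Pool.Agent.P8H7.SV.Ang

/-!
Project EV (helper8), packages NFOLD and ORTHN.
-/

set_option autoImplicit false

open MeasureTheory Set Filter Metric
open scoped Topology ContDiff ComplexConjugate

namespace Pool.Agent.P8H86.EV

open Pool.Agent.P8H8.EV
open Pool.Agent.P8H8.SV

lemma iter_shift {Θ : ℝ → ℝ} {h c : ℝ} (hs : ∀ t, Θ (t + h) = Θ t + c) (m : ℕ) (t : ℝ) :
    Θ (t + m * h) = Θ t + m * c := by
  induction m with
  | zero => simp
  | succ m ih =>
    have : t + ((m + 1 : ℕ) : ℝ) * h = (t + m * h) + h := by push_cast; ring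
    rw [this, hs, ih]
    push_cast
    ring

theorem t_NFOLD : S_NFOLD := by
  intro φ r Θ n hD hA hn hsym
  have hn0 : (n : ℝ) ≠ 0 := by positivity
  have hnC : (n : ℂ) ≠ 0 := by exact_mod_cast hn0
  set om : ℂ := Complex.exp (2 * Real.pi * Complex.I / n) with hom
  have hom0 : om ≠ 0 := Complex.exp_ne_zero _
  have homn : ‖om‖ = 1 := by
    have : (2 * Real.pi * Complex.I / n : ℂ) = ((2 * Real.pi / n : ℝ) : ℂ) * Complex.I := by
      push_cast
      ring
    rw [hom, this, Complex.norm_exp_ofReal_mul_I]
  have hexp : ∀ t : ℝ, Complex.exp (((t + 2 * Real.pi / n : ℝ) : ℂ) * Complex.I) =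
      om * Complex.exp (t * Complex.I) := by
    intro t
    rw [hom, ← Complex.exp_add]
    congr 1
    push_cast
    ring
  have hball : ∀ w ∈ ball (0 : ℂ) r, om * w ∈ ball (0 : ℂ) r := by
    intro w hw
    rw [mem_ball_zero_iff] at hw ⊢
    rw [norm_mul, homn, one_mul]
    exact hw
  -- derivatives
  have hd1 : ∀ w ∈ ball (0 : ℂ) r, deriv φ (om * w) = deriv φ w := by
    intro w hw
    have h1 : deriv (fun z => φ (om * z)) w = deriv (fun z => om * φ z) w := by
      refine Filter.EventuallyEq.deriv_eq ?_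
      filter_upwards [isOpen_ball.mem_nhds hw] with z hz
      exact hsym z hz
    have h2 : DifferentiableAt ℂ φ (om * w) :=
      hD.hol.differentiableAt (isOpen_ball.mem_nhds (hball w hw))
    have h3 : HasDerivAt (fun z => φ (om * z)) (deriv φ (om * w) * om) w := by
      have h4 : HasDerivAt (fun z => om * z) om w := by
        simpa using (hasDerivAt_id w).const_mul om
      exact HasDerivAt.comp w h2.hasDerivAt h4
    have h5 : DifferentiableAt ℂ φ w := hD.hol.differentiableAt (isOpen_ball.mem_nhds hw)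
    have h6 : HasDerivAt (fun z => om * φ z) (om * deriv φ w) w := h5.hasDerivAt.const_mul om
    rw [h3.deriv, h6.deriv, mul_comm] at h1
    exact mul_left_cancel₀ hom0 h1
  have hd2 : ∀ w ∈ ball (0 : ℂ) r, om * deriv (deriv φ) (om * w) = deriv (deriv φ) w := by
    intro w hw
    have h1 : deriv (fun z => deriv φ (om * z)) w = deriv (deriv φ) w := by
      refine Filter.EventuallyEq.deriv_eq ?_
      filter_upwards [isOpen_ball.mem_nhds hw] with z hz
      exact hd1 z hz
    have h2 : DifferentiableAt ℂ (deriv φ) (om * w) :=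
      (hD.hol.deriv isOpen_ball).differentiableAt (isOpen_ball.mem_nhds (hball w hw))
    have h3 : HasDerivAt (fun z => deriv φ (om * z)) (deriv (deriv φ) (om * w) * om) w := by
      have h4 : HasDerivAt (fun z => om * z) om w := by
        simpa using (hasDerivAt_id w).const_mul om
      exact HasDerivAt.comp w h2.hasDerivAt h4
    rw [h3.deriv, mul_comm] at h1
    exact h1
  have hder : ∀ t, deriv Θ (t + 2 * Real.pi / n) = deriv Θ t := by
    intro t
    have hm := Pool.Agent.P8H7.SV.circ_mem hD.hr t
    rw [hA.der, hA.der, hexp, hd1 _ hm]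
    congr 2
    rw [← hd2 _ hm]
    ring
  have hdiff : Differentiable ℝ Θ := hA.sm.differentiable (by simp)
  have hconst : ∀ t, Θ (t + 2 * Real.pi / n) = Θ t + (Θ (0 + 2 * Real.pi / n) - Θ 0) := by
    intro t
    have hd : ∀ s, HasDerivAt (fun s => Θ (s + 2 * Real.pi / n) - Θ s) 0 s := by
      intro s
      have h1 : HasDerivAt (fun s => Θ (s + 2 * Real.pi / n)) (deriv Θ (s + 2 * Real.pi / n)) s :=
        HasDerivAt.comp_add_const s _ (hdiff _).hasDerivAt
      have h2 := h1.sub (hdiff s).hasDerivAt
      rwa [hder, sub_self] at h2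
    have h3 := is_const_of_deriv_eq_zero (𝕜 := ℝ) (fun s => (hd s).differentiableAt)
      (fun s => (hd s).deriv) t 0
    linarith
  have hsum := iter_shift hconst n 0
  have hper := hA.per 0
  have e1 : (0 : ℝ) + n * (2 * Real.pi / n) = 0 + 2 * Real.pi := by
    field_simp
  rw [e1, hper] at hsum
  have hc : Θ (0 + 2 * Real.pi / n) - Θ 0 = 2 * Real.pi / n := by
    rw [eq_div_iff hn0]
    linarith
  intro t
  refine ⟨?_, ?_⟩
  · unfold γ
    rw [hexp]
    exact hsym _ (Pool.Agent.P8H7.SV.circ_mem hD.hr t)
  · rw [hconst, hc]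

theorem t_ORTHN : S_ORTHN := by
  intro Θ f n k hn hΘ hf hs hfp hnk
  have hn0 : (n : ℝ) ≠ 0 := by positivity
  have hnC : (n : ℂ) ≠ 0 := by exact_mod_cast hn0
  set h : ℝ := 2 * Real.pi / n with hh
  have hdiff : Differentiable ℝ Θ := hΘ.differentiable (by norm_num)
  have hder : ∀ t, deriv Θ (t + h) = deriv Θ t := by
    intro t
    have h1 : HasDerivAt (fun s => Θ (s + h)) (deriv Θ (t + h)) t :=
      HasDerivAt.comp_add_const t _ (hdiff _).hasDerivAt
    have h2 : (fun s => Θ (s + h)) = fun s => Θ s + h := funext hs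
    rw [h2] at h1
    have h3 : HasDerivAt (fun s => Θ s + h) (deriv Θ t) t := (hdiff t).hasDerivAt.add_const h
    exact h1.unique h3
  have hdc : Continuous (deriv Θ) := hΘ.continuous_deriv (by norm_num)
  have hΘc : Continuous Θ := hΘ.continuous
  let F : ℝ → ℂ := fun t => ((f t : ℝ) : ℂ) * Complex.exp ((k * Θ t : ℝ) * Complex.I) *
    ((deriv Θ t : ℝ) : ℂ)
  have hFc : Continuous F := by
    refine ((Complex.continuous_ofReal.comp hf).mul ?_).mul (Complex.continuous_ofReal.comp hdc)
    exact Complex.continuous_exp.comp (((Complex.continuous_ofReal.comp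
      (continuous_const.mul hΘc))).mul continuous_const)
  let z : ℂ := Complex.exp ((k * h : ℝ) * Complex.I)
  have hFs : ∀ t, F (t + h) = z * F t := by
    intro t
    simp only [F, z, hfp, hs, hder]
    have : Complex.exp ((k * (Θ t + h) : ℝ) * Complex.I) =
        Complex.exp ((k * h : ℝ) * Complex.I) * Complex.exp ((k * Θ t : ℝ) * Complex.I) := by
      rw [← Complex.exp_add]
      congr 1
      push_cast
      ring
    rw [this]
    ring
  have hzn : z ^ n = 1 := by
    simp only [z]
    rw [← Complex.exp_nat_mul]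
    have : (n : ℂ) * (((k * h : ℝ) : ℂ) * Complex.I) = k * (2 * Real.pi * Complex.I) := by
      rw [hh]
      push_cast
      field_simp
    rw [this]
    exact Complex.exp_nat_mul_two_pi_mul_I k
  have hz1 : z ≠ 1 := by
    intro hz
    simp only [z] at hz
    rw [Complex.exp_eq_one_iff] at hz
    obtain ⟨m, hm⟩ := hz
    apply hnk
    have h1 : ((k * h : ℝ) : ℂ) = m * (2 * Real.pi) := by
      have h2 : (((k * h : ℝ) : ℂ)) * Complex.I = (m * (2 * Real.pi)) * Complex.I := by
        rw [hm]; ring
      exact mul_right_cancel₀ Complex.I_ne_zero h2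
    have h3 : (k : ℝ) * h = m * (2 * Real.pi) := by
      exact_mod_cast h1
    rw [hh] at h3
    have hpi : (2 * Real.pi) ≠ 0 := by positivity
    have h4 : (k : ℝ) = m * n := by
      field_simp at h3
      have : (k : ℝ) = n * m := by linarith [h3]
      linarith
    have h5 : (k : ℤ) = m * n := by exact_mod_cast h4
    exact Int.natCast_dvd_natCast.1 ⟨m, by rw [h5]; ring⟩
  have hFper : Function.Periodic F (2 * Real.pi) := by
    intro t
    have h1 : ∀ m : ℕ, F (t + m * h) = z ^ m * F t := by
      intro m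
      induction m with
      | zero => simp
      | succ m ih =>
        have : t + ((m + 1 : ℕ) : ℝ) * h = (t + m * h) + h := by push_cast; ring
        rw [this, hFs, ih]
        ring
    have h2 := h1 n
    have e1 : (n : ℝ) * h = 2 * Real.pi := by
      rw [hh]
      field_simp
    rw [e1, hzn, one_mul] at h2
    exact h2
  have hZ : ∫ t in (0 : ℝ)..2 * Real.pi, F t = 0 := by
    have h1 : ∫ t in (0 : ℝ)..2 * Real.pi, F (t + h) = ∫ t in (0 : ℝ)..2 * Real.pi, F t := by
      rw [intervalIntegral.integral_comp_add_right]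
      have h2 := hFper.intervalIntegral_add_eq h 0
      rw [zero_add] at h2
      rw [zero_add, add_comm (2 * Real.pi) h]
      exact h2
    simp only [hFs] at h1
    rw [intervalIntegral.integral_const_mul] at h1
    have h3 : (z - 1) * ∫ t in (0 : ℝ)..2 * Real.pi, F t = 0 := by
      rw [sub_mul, one_mul, h1, sub_self]
    exact (mul_eq_zero.1 h3).resolve_left (sub_ne_zero.2 hz1)
  have hre : ∀ t, (F t).re = f t * Real.cos (k * Θ t) * deriv Θ t := by
    intro t
    simp only [F]
    rw [Complex.re_mul_ofReal, Complex.re_ofReal_mul, Complex.exp_ofReal_mul_I_re]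
  have him : ∀ t, (F t).im = f t * Real.sin (k * Θ t) * deriv Θ t := by
    intro t
    simp only [F]
    rw [Complex.im_mul_ofReal, Complex.im_ofReal_mul, Complex.exp_ofReal_mul_I_im]
  have hint : IntervalIntegrable F volume 0 (2 * Real.pi) := hFc.intervalIntegrable _ _
  constructor
  · have h1 := Complex.reCLM.intervalIntegral_comp_comm hint
    rw [hZ, map_zero] at h1
    have h2 : ∫ t in (0 : ℝ)..2 * Real.pi, f t * Real.cos (k * Θ t) * deriv Θ t =
        ∫ t in (0 : ℝ)..2 * Real.pi, Complex.reCLM (F t) :=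
      intervalIntegral.integral_congr fun t _ => (hre t).symm
    rw [h2]
    exact h1
  · have h1 := Complex.imCLM.intervalIntegral_comp_comm hint
    rw [hZ, map_zero] at h1
    have h2 : ∫ t in (0 : ℝ)..2 * Real.pi, f t * Real.sin (k * Θ t) * deriv Θ t =
        ∫ t in (0 : ℝ)..2 * Real.pi, Complex.imCLM (F t) :=
      intervalIntegral.integral_congr fun t _ => (him t).symm
    rw [h2]
    exact h1

end Pool.Agent.P8H86.EV
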