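import Pool.Agent.P8H8.EV.Stm

/-!
Project EV (helper8), package COEF.
-/

set_option autoImplicit false

open MeasureTheory Set Filter Metric
open scoped Topology ContDiff ComplexConjugate

namespace Pool.Agent.P8H86.EV

open Pool.Agent.P8H8.EV

/-- the real derivative of a holomorphic function -/
lemma real_deriv {f : ℂ → ℂ} {w : ℂ} (hf : DifferentiableAt ℂ f w) :
    HasFDerivAt f ((ContinuousLinearMap.mul ℝ ℂ) (deriv f w)) w := by
  have h1 := hf.hasDerivAt.hasFDerivAt.restrictScalars ℝ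
  refine h1.congr_fderiv ?_
  ext <;> simp [mul_comm]

/-- `Dy` is local. -/
lemma Dy_congr {S : Set ℂ} (hS : IsOpen S) {f1 f2 : ℂ → ℂ} (h : ∀ ζ ∈ S, f1 ζ = f2 ζ) (k : ℕ) :
    ∀ ζ ∈ S, Dy^[k] f1 ζ = Dy^[k] f2 ζ := by
  induction k generalizing f1 f2 with
  | zero => exact h
  | succ k ih =>
    intro ζ hζ
    rw [Function.iterate_succ_apply, Function.iterate_succ_apply]
    refine ih ?_ ζ hζ
    intro z hz
    unfold Dy
    have : f1 =ᶠ[𝓝 z] f2 := by
      filter_upwards [hS.mem_nhds hz] with x hx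
      exact h x hx
    rw [this.fderiv_eq]

/-- the angular derivative of complex valued functions -/
noncomputable def Tc (G : ℂ → ℂ) (w : ℂ) : ℂ := fderiv ℝ G w (Complex.I * w)

lemma Tc_smooth {U : Set ℂ} (hU : IsOpen U) {G : ℂ → ℂ} (hG : ContDiffOn ℝ ∞ G U) :
    ContDiffOn ℝ ∞ (Tc G) U := by
  unfold Tc
  have h1 : ContDiffOn ℝ ∞ (fderiv ℝ G) U := hG.fderiv_of_isOpen hU (by simp)
  exact h1.clm_apply (contDiffOn_const.mul contDiffOn_id)

lemma Tc_iter_smooth {U : Set ℂ} (hU : IsOpen U) {G : ℂ → ℂ} (hG : ContDiffOn ℝ ∞ G U) (k : ℕ) :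
    ContDiffOn ℝ ∞ (Tc^[k] G) U := by
  induction k with
  | zero => exact hG
  | succ k ih =>
    rw [Function.iterate_succ_apply']
    exact Tc_smooth hU ih

lemma exp_chain_c {G : ℂ → ℂ} {ζ : ℂ} (hG : DifferentiableAt ℝ G (Complex.exp ζ)) (η : ℂ) :
    fderiv ℝ (fun x => G (Complex.exp x)) ζ η =
      fderiv ℝ G (Complex.exp ζ) (Complex.exp ζ * η) := by
  have h2 := real_deriv (Complex.differentiable_exp ζ)
  have h3 := hG.hasFDerivAt.comp ζ h2
  have h4 : fderiv ℝ (fun x => G (Complex.exp x)) ζ = _ := h3.fderiv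
  rw [h4]
  simp

lemma Dy_exp {U : Set ℂ} (hU : IsOpen U) {G : ℂ → ℂ} (hG : ContDiffOn ℝ ∞ G U) (k : ℕ) :
    ∀ ζ : ℂ, Complex.exp ζ ∈ U → Dy^[k] (fun x => G (Complex.exp x)) ζ =
      (Tc^[k] G) (Complex.exp ζ) := by
  induction k generalizing G with
  | zero => intro ζ _; rfl
  | succ k ih =>
    intro ζ hζ
    rw [Function.iterate_succ_apply, Function.iterate_succ_apply]
    rw [← ih (Tc_smooth hU hG) ζ hζ]
    refine Dy_congr (S := Complex.exp ⁻¹' U) (hU.preimage Complex.continuous_exp) ?_ k ζ hζ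
    intro z hz
    have hd : DifferentiableAt ℝ G (Complex.exp z) :=
      (hG.contDiffAt (hU.mem_nhds hz)).differentiableAt (by simp)
    unfold Dy Tc
    rw [exp_chain_c hd, mul_comm]

lemma deriv_exp {U : Set ℂ} (hU : IsOpen U) (hc : ∀ y : ℝ, Complex.exp (y * Complex.I) ∈ U)
    {G : ℂ → ℂ} (hG : ContDiffOn ℝ ∞ G U) (k : ℕ) :
    deriv^[k] (fun y : ℝ => G (Complex.exp (y * Complex.I))) =
      fun y : ℝ => (Tc^[k] G) (Complex.exp (y * Complex.I)) := by
  induction k generalizing G with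
  | zero => rfl
  | succ k ih =>
    rw [Function.iterate_succ_apply, Function.iterate_succ_apply]
    rw [← ih (Tc_smooth hU hG)]
    congr 1
    funext y
    have hd : DifferentiableAt ℝ G (Complex.exp (y * Complex.I)) :=
      (hG.contDiffAt (hU.mem_nhds (hc y))).differentiableAt (by simp)
    have h1 : HasDerivAt (fun s : ℝ => (s : ℂ) * Complex.I) (1 * Complex.I) y :=
      (HasDerivAt.ofReal_comp (hasDerivAt_id y)).mul_const _
    have h2 := h1.cexp
    have h3 := hd.hasFDerivAt.comp_hasDerivAt y h2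
    rw [one_mul] at h3
    have h4 : deriv (fun y : ℝ => G (Complex.exp (y * Complex.I))) y = _ := h3.deriv
    rw [h4]
    unfold Tc
    rw [mul_comm (Complex.exp _) Complex.I]

/-- uniform continuity in the annulus -/
lemma unif_c (G : ℂ → ℂ) (hG : ContinuousOn G (closedBall 0 1 \ ball 0 (1 / 2))) :
    UL (fun ζ => G (Complex.exp ζ)) (fun y => G (Complex.exp (y * Complex.I))) := by
  intro ε hε
  have hcomp : IsCompact (closedBall (0 : ℂ) 1 \ ball 0 (1 / 2)) :=
    (isCompact_closedBall 0 1).diff isOpen_ball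
  have hu := hcomp.uniformContinuousOn_of_continuous hG
  rw [Metric.uniformContinuousOn_iff] at hu
  obtain ⟨δ, hδ, h⟩ := hu ε hε
  refine ⟨min δ (1 / 2), by positivity, fun x y h1 h2 => ?_⟩
  have hx1 : -δ < x := lt_of_le_of_lt (neg_le_neg (min_le_left _ _)) h1
  have hx2 : -(1 / 2) < x := lt_of_le_of_lt (neg_le_neg (min_le_right _ _)) h1
  have hex : 1 + x ≤ Real.exp x := by linarith [Real.add_one_le_exp x]
  have hex2 : Real.exp x < 1 := by rw [Real.exp_lt_one_iff]; exact h2
  have n1 : ‖Complex.exp (x + y * Complex.I)‖ = Real.exp x := by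
    rw [Complex.norm_exp]
    simp
  have n2 : ‖Complex.exp (y * Complex.I)‖ = 1 := Complex.norm_exp_ofReal_mul_I y
  have m1 : Complex.exp (x + y * Complex.I) ∈ closedBall (0 : ℂ) 1 \ ball 0 (1 / 2) := by
    rw [Set.mem_sdiff, mem_closedBall_zero_iff, mem_ball_zero_iff, n1]
    exact ⟨hex2.le, by linarith⟩
  have m2 : Complex.exp (y * Complex.I) ∈ closedBall (0 : ℂ) 1 \ ball 0 (1 / 2) := by
    rw [Set.mem_sdiff, mem_closedBall_zero_iff, mem_ball_zero_iff, n2]
    norm_num
  have hd : dist (Complex.exp (x + y * Complex.I)) (Complex.exp (y * Complex.I)) < δ := by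
    rw [dist_eq_norm, Complex.exp_add]
    have e : Complex.exp x * Complex.exp (y * Complex.I) - Complex.exp (y * Complex.I) =
        ((Real.exp x - 1 : ℝ) : ℂ) * Complex.exp (y * Complex.I) := by
      push_cast
      ring
    rw [e, norm_mul, n2, mul_one, Complex.norm_real, Real.norm_eq_abs, abs_of_neg (by linarith)]
    linarith
  have := h _ m1 _ m2 hd
  rwa [dist_eq_norm] at this

theorem t_COEF : S_COEF := by
  intro r G hr hG
  have hU : IsOpen (ball (0 : ℂ) r \ {0}) := isOpen_ball.sdiff isClosed_singleton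
  have hc : ∀ y : ℝ, Complex.exp (y * Complex.I) ∈ ball (0 : ℂ) r \ {0} := by
    intro y
    refine ⟨?_, Complex.exp_ne_zero _⟩
    rw [mem_ball_zero_iff, Complex.norm_exp_ofReal_mul_I]
    exact hr
  have hh : ∀ ζ : ℂ, ζ.re < 0 → Complex.exp ζ ∈ ball (0 : ℂ) r \ {0} := by
    intro ζ hζ
    refine ⟨?_, Complex.exp_ne_zero _⟩
    rw [mem_ball_zero_iff, Complex.norm_exp]
    have : Real.exp ζ.re < 1 := by rw [Real.exp_lt_one_iff]; exact hζ
    linarith
  have hexpR : ContDiff ℝ ∞ Complex.exp := Complex.contDiff_exp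
  refine ⟨?_, ?_, ?_, ?_⟩
  · exact hG.comp hexpR.contDiffOn fun ζ hζ => hh ζ hζ
  · rw [contDiff_iff_contDiffAt]
    intro y
    have hexpc : ContDiff ℝ ∞ (fun s : ℝ => Complex.exp (s * Complex.I)) :=
      (Complex.ofRealCLM.contDiff.mul contDiff_const).cexp
    exact (hG.contDiffAt (hU.mem_nhds (hc y))).comp y hexpc.contDiffAt
  · intro y
    have : Complex.exp (((y + 2 * Real.pi : ℝ) : ℂ) * Complex.I) =
        Complex.exp (y * Complex.I) := by
      push_cast
      rw [add_mul, Complex.exp_add, Complex.exp_two_pi_mul_I, mul_one]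
    rw [this]
  · intro k
    rw [deriv_exp hU hc hG k]
    have hsub : closedBall (0 : ℂ) 1 \ ball 0 (1 / 2) ⊆ ball 0 r \ {0} := by
      intro w hw
      refine ⟨?_, fun h0 => hw.2 ?_⟩
      · have := mem_closedBall_zero_iff.1 hw.1
        rw [mem_ball_zero_iff]
        linarith
      · rw [mem_singleton_iff] at h0
        rw [h0]
        exact mem_ball_self (by norm_num)
    have h1 := unif_c (Tc^[k] G) ((Tc_iter_smooth hU hG k).continuousOn.mono hsub)
    intro ε hε
    obtain ⟨δ, hδ, h⟩ := h1 ε hε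
    refine ⟨δ, hδ, fun x y hx hx0 => ?_⟩
    have h2 := h x y hx hx0
    rw [Dy_exp hU hG k _ (hh _ (by simpa using hx0))]
    exact h2

end Pool.Agent.P8H86.EV
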